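import Pool.Agent.Lib.MP_ca3eb1_co.C4.Complete

/-!
# The excluded series minors for the quaternary transversal matroids

The complete list, up to isomorphism: corank two: the uniform matroids of corank two with at
least six elements; corank three: the matroids whose dual is simple with at most five lines
through every point, with 23 exceptions; corank four: 33 sporadic matroids; corank at least four:
the family `Ca3.IsRing`.
-/

namespace Pool.Agent.Results.MP_ca3eb1_co.ExcludedSeriesMinors

open Matroid

theorem result (α : Type) (M : Matroid α) (hM : M.Finite) :
    Ca3.IsExcluded M ↔ Ca3.Corank2 M ∨ Ca3.Corank3 M ∨ Ca3.Corank4 M ∨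
      (4 ≤ M✶.eRank ∧ Ca3.IsRing M) :=
  Ca3.C4.complete_list

end Pool.Agent.Results.MP_ca3eb1_co.ExcludedSeriesMinors
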